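import Pool.Agent.Q164.BR.Main

/-!
# Trivial recolouring implies dismantlability, for binary matroids
-/

set_option autoImplicit false

namespace Pool.Agent.Results.MP_ea4033_co.TrivialDismantles

open Pool.Agent.Q164.BR Pool.Agent.Q164.BR.BinMat

/-- **Question 1 (true).** If `Recol(N)` is trivial, that is, `Col(M, N)` is connected for every
binary matroid `M`, then the (nonempty) binary matroid `N` dismantles to the loop or to the
edge. -/
theorem result (N : BinMat) (hne : Nonempty N.E)
    (h : ∀ M : BinMat, (Col M N).Preconnected) :
    N.Dismantles BinMat.loop ∨ N.Dismantles BinMat.edge :=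
  Pool.Agent.Q164.BR.main _ N rfl hne h

end Pool.Agent.Results.MP_ea4033_co.TrivialDismantles
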